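import Mathlib
import Pool.Agent.Helper730.Kneser

/-!
# Signed zero-3-sum-free sets in cyclic groups: the maximum size for every modulus
-/

namespace Pool.Agent.Results.MP_25b479_co.AllModuli

open Finset Pool.Agent.Helper730.Kneser
open scoped Pointwise

/-- `0` is not a signed sum of three elements of `A`. -/
def Free {G : Type*} [AddCommGroup G] (A : Finset G) : Prop :=
  ∀ a ∈ A, ∀ b ∈ A, ∀ c ∈ A, a + b + c ≠ 0 ∧ a + b ≠ c

/-- The maximum size of a subset of the cyclic group of order `n` with this property. -/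
noncomputable def tau (n : ℕ) : ℕ := sSup {k | ∃ A : Finset (ZMod n), Free A ∧ A.card = k}

open Classical in
/-- The conjectured value. -/
noncomputable def v (n : ℕ) : ℕ :=
  if h : ∃ p, p.Prime ∧ p ∣ n ∧ p % 3 = 2 then (Nat.find h + 1) / 3 * (n / Nat.find h)
  else (n - 1) / 3

theorem exists_prime_two_mod_three (d : ℕ) (hd : d % 3 = 2) :
    ∃ p, p.Prime ∧ p ∣ d ∧ p % 3 = 2 := by
  induction d using Nat.strong_induction_on with
  | _ d ih =>
    have h1 : d ≠ 1 := by rintro rfl; omega
    set q := d.minFac with hq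
    have hqp : q.Prime := Nat.minFac_prime h1
    have hqd : q ∣ d := Nat.minFac_dvd d
    obtain ⟨e, he⟩ := hqd
    have h3 : q % 3 ≠ 0 := by
      intro h0
      rw [he, Nat.mul_mod, h0] at hd
      simp at hd
    by_cases h2 : q % 3 = 2
    · exact ⟨q, hqp, ⟨e, he⟩, h2⟩
    · have h4 : q % 3 = 1 := by omega
      have h5 : e % 3 = 2 := by
        rw [he, Nat.mul_mod, h4] at hd
        omega
      have h6 : e < d := by
        have := hqp.two_le
        have he0 : 0 < e := by omega
        rw [he]; nlinarith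
      obtain ⟨p, hp, hpe, hp2⟩ := ih e h6 h5
      exact ⟨p, hp, hpe.trans ⟨q, by rw [he]; ring⟩, hp2⟩

theorem periodic_card {G : Type*} [AddCommGroup G] [Fintype G] [DecidableEq G]
    (H : AddSubgroup G) (C : Finset G) (hC : ∀ x ∈ C, ∀ g ∈ H, x + g ∈ C) :
    (fs H).card ∣ C.card := by
  classical
  rw [Finset.card_eq_sum_card_image (QuotientAddGroup.mk : G → G ⧸ H) C]
  apply Finset.dvd_sum
  intro y hy
  rw [Finset.mem_image] at hy
  obtain ⟨x, hx, rfl⟩ := hy
  have h1 : (C.filter fun a => (QuotientAddGroup.mk a : G ⧸ H) = QuotientAddGroup.mk x) =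
      (fs H).image fun g => x + g := by
    ext a
    rw [Finset.mem_filter, Finset.mem_image]
    constructor
    · rintro ⟨-, h⟩
      refine ⟨-x + a, mem_fs.2 (QuotientAddGroup.eq.1 h.symm), by abel⟩
    · rintro ⟨g, hg, rfl⟩
      refine ⟨hC x hx g (mem_fs.1 hg), ?_⟩
      exact (QuotientAddGroup.eq.2 (by rw [neg_add_cancel_left]; exact mem_fs.1 hg)).symm
  rw [h1, Finset.card_image_of_injective _ (add_right_injective x)]

/-- The Kneser bound for symmetric sum-free sets. -/
theorem kneser_bound {G : Type*} [AddCommGroup G] [Fintype G] [DecidableEq G] (B : Finset G)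
    (hB : B.Nonempty) (hfree : ∀ a ∈ B, ∀ b ∈ B, a + b ∉ B) :
    ∃ h t d : ℕ, 0 < h ∧ Fintype.card G = d * h ∧ B.card ≤ t * h ∧ 3 * t ≤ d + 1 := by
  classical
  set H := stab (B + B) with hH
  have hk := kneser' B B hB hB
  rw [← hH] at hk
  have hper : ∀ x ∈ B + fs H, ∀ g ∈ H, x + g ∈ B + fs H := by
    intro x hx g hg
    obtain ⟨b, hb, u, hu, rfl⟩ := Finset.mem_add.1 hx
    rw [add_assoc]
    exact Finset.add_mem_add hb (mem_fs.2 (H.add_mem (mem_fs.1 hu) hg))
  obtain ⟨t, ht⟩ := periodic_card H (B + fs H) hper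
  obtain ⟨d, hd⟩ := periodic_card H (Finset.univ : Finset G) (fun _ _ _ _ => Finset.mem_univ _)
  have hdisj : Disjoint (B + fs H) (B + B) := by
    rw [Finset.disjoint_left]
    intro x hx hx2
    obtain ⟨b, hb, u, hu, rfl⟩ := Finset.mem_add.1 hx
    have h1 := stab_add (H.neg_mem (mem_fs.1 hu)) hx2
    rw [add_neg_cancel_right] at h1
    obtain ⟨b1, hb1, b2, hb2, h2⟩ := Finset.mem_add.1 h1
    exact hfree b1 hb1 b2 hb2 (by rw [h2]; exact hb)
  have hle := Finset.card_le_univ ((B + fs H) ∪ (B + B))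
  rw [Finset.card_union_of_disjoint hdisj] at hle
  have hpos := fs_card_pos H
  have hBsub : B ⊆ B + fs H := by
    intro b hb
    have := Finset.add_mem_add hb (mem_fs.2 H.zero_mem)
    rwa [add_zero] at this
  have hBle := Finset.card_le_card hBsub
  rw [Finset.card_univ] at hd
  refine ⟨(fs H).card, t, d, hpos, by rw [hd]; ring, by rw [ht] at hBle; linarith, ?_⟩
  have h3 : 3 * t * (fs H).card ≤ (d + 1) * (fs H).card := by
    rw [ht] at hk hle
    rw [hd] at hle
    nlinarith
  exact Nat.le_of_mul_le_mul_right h3 hpos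

theorem upper (n : ℕ) [NeZero n] (A : Finset (ZMod n)) (hA : Free A) : A.card ≤ v n := by
  classical
  rcases A.eq_empty_or_nonempty with rfl | hne
  · simp
  set B := A ∪ A.image (fun x => -x) with hB
  have hAB : A ⊆ B := Finset.subset_union_left
  have hneg : ∀ b ∈ B, -b ∈ B := by
    intro b hb
    rw [hB, Finset.mem_union, Finset.mem_image] at hb ⊢
    rcases hb with hb | ⟨a, ha, rfl⟩
    · exact Or.inr ⟨b, hb, rfl⟩
    · left; rwa [neg_neg]
  have hsign : ∀ b ∈ B, b ∈ A ∨ -b ∈ A := by
    intro b hb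
    rw [hB, Finset.mem_union, Finset.mem_image] at hb
    rcases hb with hb | ⟨a, ha, rfl⟩
    · exact Or.inl hb
    · right; rwa [neg_neg]
  have hfree : ∀ a ∈ B, ∀ b ∈ B, a + b ∉ B := by
    intro a ha b hb hab
    rcases hsign a ha with h1 | h1 <;> rcases hsign b hb with h2 | h2 <;>
      rcases hsign _ hab with h3 | h3
    · exact (hA a h1 b h2 _ h3).2 rfl
    · exact (hA a h1 b h2 _ h3).1 (by abel)
    · exact (hA _ h3 _ h2 a h1).2 (by abel)
    · exact (hA _ h3 a h1 _ h2).2 (by abel)
    · exact (hA _ h3 _ h1 b h2).2 (by abel)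
    · exact (hA _ h3 b h2 _ h1).2 (by abel)
    · exact (hA _ h1 _ h2 _ h3).1 (by abel)
    · exact (hA _ h1 _ h2 _ h3).2 (by abel)
  obtain ⟨h, t, d, hh, hcard, hBt, h3⟩ := kneser_bound B (hne.mono hAB) hfree
  rw [ZMod.card] at hcard
  have hAle : A.card ≤ B.card := Finset.card_le_card hAB
  have hn0 : 0 < n := Nat.pos_of_ne_zero (NeZero.ne n)
  have hd0 : 0 < d := by
    rcases Nat.eq_zero_or_pos d with h0 | h0
    · rw [h0, zero_mul] at hcard; omega
    · exact h0
  unfold v
  split_ifs with hp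
  · obtain ⟨hp1, hp2, hp3⟩ := Nat.find_spec hp
    set p := Nat.find hp with hpdef
    obtain ⟨q, hq⟩ := hp2
    have hp0 : 0 < p := hp1.pos
    have hnp : n / p = q := by rw [hq]; exact Nat.mul_div_cancel_left q hp0
    rw [hnp]
    obtain ⟨r, hr⟩ : ∃ r, p = 3 * r + 2 := ⟨p / 3, by omega⟩
    have hr2 : (p + 1) / 3 = r + 1 := by omega
    rw [hr2]
    -- 3 * t * h ≤ n + q
    have hkey : 3 * (t * h) ≤ n + q := by
      by_cases hd3 : d % 3 = 2
      · obtain ⟨p', hp'1, hp'2, hp'3⟩ := exists_prime_two_mod_three d hd3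
        have hpp' : p ≤ p' := Nat.find_min' hp ⟨hp'1, hp'2.trans ⟨h, hcard⟩, hp'3⟩
        have hpd : p ≤ d := hpp'.trans (Nat.le_of_dvd hd0 hp'2)
        have hhq : h ≤ q := by
          have h4 : d * h = p * q := by rw [← hcard, hq]
          by_contra hlt
          push Not at hlt
          nlinarith
        nlinarith
      · have h5 : 3 * t ≤ d := by omega
        nlinarith
    have : 3 * A.card ≤ p * q + q := by rw [← hq]; omega
    rw [hr] at this
    nlinarith
  · push Not at hp
    have hdiv : ∀ e, e ∣ n → e % 3 ≠ 2 := by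
      intro e he he2
      obtain ⟨p', hp'1, hp'2, hp'3⟩ := exists_prime_two_mod_three e he2
      exact hp p' hp'1 (hp'2.trans he) hp'3
    have hn3 := hdiv n dvd_rfl
    have hd3 := hdiv d ⟨h, hcard⟩
    have hodd : n % 2 = 1 := by
      by_contra hev
      exact hp 2 Nat.prime_two (by omega) rfl
    have h5 : 3 * t ≤ d := by omega
    have hBn : 3 * B.card ≤ n := by nlinarith
    -- B has even size
    have hev : B.card % 2 = 0 := by
      have hinv : ∀ b ∈ B, -b ≠ b := by
        intro b hb hbb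
        have h6 : b + b = 0 := by
          nth_rewrite 1 [← hbb]; exact neg_add_cancel b
        have h7 : b = 0 := by
          have h8 : ((2 : ℕ) : ZMod n) * b = 0 := by push_cast; rw [two_mul]; exact h6
          have h9 : IsUnit ((2 : ℕ) : ZMod n) := by
            rw [ZMod.isUnit_iff_coprime]
            rw [Nat.coprime_two_left]
            exact Nat.odd_iff.2 hodd
          exact (h9.mul_right_eq_zero).1 h8
        subst h7
        exact hfree 0 hb 0 hb (by rw [add_zero]; exact hb)
      have h10 : ∑ _b ∈ B, (1 : ZMod 2) = 0 :=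
        Finset.sum_involution (fun b _ => -b) (fun _ _ => rfl) (fun b hb _ => hinv b hb)
          (fun b hb => hneg b hb) (fun b _ => neg_neg b)
      rw [Finset.sum_const, nsmul_eq_mul, mul_one, ZMod.natCast_eq_zero_iff] at h10
      omega
    omega

/-- Intervals of residues. -/
theorem interval_free (n lo k : ℕ) [NeZero n] (hk : 0 < k)
    (h2 : 2 * (lo + k) ≤ n + lo + 1) (h3 : n < 3 * lo) (h4 : 3 * (lo + k) < 2 * n + 3)
    (h5 : lo + k ≤ n) :
    ∃ A : Finset (ZMod n), Free A ∧ A.card = k := by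
  classical
  refine ⟨(Finset.Ico lo (lo + k)).image fun i : ℕ => (i : ZMod n), ?_, ?_⟩
  · intro a ha b hb c hc
    rw [Finset.mem_image] at ha hb hc
    obtain ⟨i, hi, rfl⟩ := ha
    obtain ⟨j, hj, rfl⟩ := hb
    obtain ⟨l, hl, rfl⟩ := hc
    rw [Finset.mem_Ico] at hi hj hl
    constructor
    · intro h
      have h6 : ((i + j + l : ℕ) : ZMod n) = 0 := by push_cast; exact h
      rw [ZMod.natCast_eq_zero_iff] at h6
      obtain ⟨q, hq⟩ := h6
      have : q = 0 ∨ q = 1 ∨ 2 ≤ q := by omega
      rcases this with rfl | rfl | hq2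
      · omega
      · omega
      · nlinarith
    · intro h
      have h6 : (((i + j : ℕ) : ℤ) : ZMod n) = ((l : ℕ) : ℤ) := by push_cast; exact h
      rw [ZMod.intCast_eq_intCast_iff_dvd_sub] at h6
      obtain ⟨q, hq⟩ := h6
      have : q ≤ -2 ∨ q = -1 ∨ q = 0 ∨ 1 ≤ q := by omega
      rcases this with hq2 | rfl | rfl | hq2
      · push_cast at hq; nlinarith
      · push_cast at hq; omega
      · push_cast at hq; omega
      · push_cast at hq; nlinarith
  · rw [Finset.card_image_of_injOn, Nat.card_Ico]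
    · omega
    · intro i hi j hj hij
      rw [Finset.mem_coe, Finset.mem_Ico] at hi hj
      simp only at hij
      have h6 := (ZMod.natCast_eq_natCast_iff' i j n).1 hij
      rwa [Nat.mod_eq_of_lt (by omega), Nat.mod_eq_of_lt (by omega)] at h6

/-- Unions of residue classes modulo a divisor. -/
theorem classes_free (p q r : ℕ) (hp : p = 3 * r + 2) (hq : 0 < q) :
    ∃ A : Finset (ZMod (p * q)), Free A ∧ A.card = (r + 1) * q := by
  classical
  have hp0 : 0 < p := by omega
  have : NeZero (p * q) := ⟨(Nat.mul_pos hp0 hq).ne'⟩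
  refine ⟨((Finset.Ico (r + 1) (2 * r + 2)) ×ˢ (Finset.range q)).image
    fun x : ℕ × ℕ => ((x.1 + p * x.2 : ℕ) : ZMod (p * q)), ?_, ?_⟩
  · intro a ha b hb c hc
    rw [Finset.mem_image] at ha hb hc
    obtain ⟨⟨i, i'⟩, hi, rfl⟩ := ha
    obtain ⟨⟨j, j'⟩, hj, rfl⟩ := hb
    obtain ⟨⟨l, l'⟩, hl, rfl⟩ := hc
    rw [Finset.mem_product, Finset.mem_Ico] at hi hj hl
    simp only at hi hj hl
    constructor
    · intro h
      have h6 : ((i + p * i' + (j + p * j') + (l + p * l') : ℕ) : ZMod (p * q)) = 0 := by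
        push_cast at h ⊢; exact h
      rw [ZMod.natCast_eq_zero_iff] at h6
      have h7 : p ∣ i + j + l := by
        have h8 : p ∣ i + p * i' + (j + p * j') + (l + p * l') := (Dvd.intro _ rfl).trans h6
        have h9 : i + p * i' + (j + p * j') + (l + p * l') = (i + j + l) + p * (i' + j' + l') := by
          ring
        rw [h9] at h8
        exact (Nat.dvd_add_left (Dvd.intro _ rfl)).1 h8
      obtain ⟨e, he⟩ := h7
      have : e = 0 ∨ e = 1 ∨ 2 ≤ e := by omega
      rcases this with rfl | rfl | he2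
      · omega
      · omega
      · nlinarith
    · intro h
      have h6 : (((i + p * i' + (j + p * j') : ℕ) : ℤ) : ZMod (p * q)) =
          (((l + p * l' : ℕ) : ℤ) : ZMod (p * q)) := by
        push_cast at h ⊢; exact h
      rw [ZMod.intCast_eq_intCast_iff_dvd_sub] at h6
      have h7 : (p : ℤ) ∣ (l : ℤ) - (i + j) := by
        have h8 : (p : ℤ) ∣ ((l + p * l' : ℕ) : ℤ) - ((i + p * i' + (j + p * j') : ℕ) : ℤ) := by
          refine Dvd.dvd.trans ?_ h6
          push_cast
          exact Dvd.intro _ rfl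
        have h9 : ((l + p * l' : ℕ) : ℤ) - ((i + p * i' + (j + p * j') : ℕ) : ℤ) =
            ((l : ℤ) - (i + j)) + p * (l' - i' - j') := by push_cast; ring
        rw [h9] at h8
        exact (Int.dvd_add_left (Dvd.intro _ rfl)).1 h8
      obtain ⟨e, he⟩ := h7
      have : e ≤ -2 ∨ e = -1 ∨ e = 0 ∨ 1 ≤ e := by omega
      rcases this with he2 | rfl | rfl | he2
      · nlinarith
      · omega
      · omega
      · nlinarith
  · rw [Finset.card_image_of_injOn, Finset.card_product, Nat.card_Ico, Finset.card_range]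
    · congr 1; omega
    · rintro ⟨i, i'⟩ hi ⟨j, j'⟩ hj hij
      rw [Finset.mem_coe, Finset.mem_product, Finset.mem_Ico, Finset.mem_range] at hi hj
      simp only at hi hj hij
      have hlt : ∀ a a' : ℕ, a < p → a' < q → a + p * a' < p * q := by
        intro a a' h1 h2
        have : p * (a' + 1) ≤ p * q := Nat.mul_le_mul_left _ h2
        rw [mul_add] at this
        omega
      have h6 := (ZMod.natCast_eq_natCast_iff' _ _ _).1 hij
      rw [Nat.mod_eq_of_lt (hlt i i' (by omega) hi.2), Nat.mod_eq_of_lt (hlt j j' (by omega) hj.2)]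
        at h6
      have h7 : i = j := by
        have := congrArg (fun x => x % p) h6
        simp only [Nat.add_mul_mod_self_left] at this
        rwa [Nat.mod_eq_of_lt (by omega), Nat.mod_eq_of_lt (by omega)] at this
      subst h7
      have h8 : p * i' = p * j' := by omega
      rw [Nat.eq_of_mul_eq_mul_left hp0 h8]

theorem lower (n : ℕ) [NeZero n] : ∃ A : Finset (ZMod n), Free A ∧ A.card = v n := by
  classical
  have hn0 : 0 < n := Nat.pos_of_ne_zero (NeZero.ne n)
  by_cases hp : ∃ p, p.Prime ∧ p ∣ n ∧ p % 3 = 2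
  · have hv : v n = (Nat.find hp + 1) / 3 * (n / Nat.find hp) := by
      unfold v; rw [dif_pos hp]
    obtain ⟨hp1, hp2, hp3⟩ := Nat.find_spec hp
    rw [hv]
    generalize Nat.find hp = p at hp1 hp2 hp3
    obtain ⟨q, rfl⟩ := hp2
    have hp0 : 0 < p := hp1.pos
    have hq0 : 0 < q := Nat.pos_of_mul_pos_left hn0
    rw [Nat.mul_div_cancel_left q hp0]
    obtain ⟨r, hr⟩ : ∃ r, p = 3 * r + 2 := ⟨p / 3, by omega⟩
    have hr2 : (p + 1) / 3 = r + 1 := by omega
    rw [hr2]
    exact classes_free p q r hr hq0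
  · have hv : v n = (n - 1) / 3 := by
      unfold v; rw [dif_neg hp]
    rw [hv]
    rcases Nat.eq_zero_or_pos ((n - 1) / 3) with h0 | h0
    · rw [h0]
      exact ⟨∅, by intro a ha; simp at ha, rfl⟩
    have hn3 : n % 3 ≠ 2 := by
      intro h
      obtain ⟨p', hp'1, hp'2, hp'3⟩ := exists_prime_two_mod_three n h
      exact hp ⟨p', hp'1, hp'2, hp'3⟩
    exact interval_free n (n / 3 + 1) ((n - 1) / 3) h0 (by omega) (by omega)
      (by omega) (by omega)

/-- For every positive integer `n` the maximum size of a subset `A` of the cyclic group of order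
`n` such that `0` is not a signed sum of three elements of `A` equals `v n`. -/
theorem result (n : ℕ) (hn : 0 < n) : tau n = v n := by
  have : NeZero n := ⟨hn.ne'⟩
  unfold tau
  apply le_antisymm
  · obtain ⟨A, hA, hc⟩ := lower n
    refine csSup_le ⟨v n, A, hA, hc⟩ ?_
    rintro k ⟨A, hA, rfl⟩
    exact upper n A hA
  · apply le_csSup
    · refine ⟨v n, ?_⟩
      rintro k ⟨A, hA, rfl⟩
      exact upper n A hA
    · exact lower n

end Pool.Agent.Results.MP_25b479_co.AllModuli
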